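import Mathlib
import Pool.Agent.R351.SU.Tpl

/-!
# Logarithms of the numbers `u α ^ m + v β ^ m`: only `O (log M)` exceptions among the `m ≤ M`

Let `u`, `v` be nonzero algebraic numbers, and let `α_1, …, α_r`, `β_1, …, β_r` be nonzero algebraic
numbers with `|β_i| < |α_i|` such that the numbers `(β / α) ^ m = ∏ (β_i / α_i) ^ m_i` are distinct for
the vectors `m` of natural numbers (this is automatic for `r = 1`). Consider the logarithms of the
numbers `u α ^ m + v β ^ m`, for example

* of the numbers `2 ^ m + 1`, `2 ^ m - 1`, `a ^ m - b ^ m`, or `2 ^ m 3 ^ n + 1`, and more generally of the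
  numbers `s + c` for a fixed integer `c ≠ 0` and the products `s` of powers of `r` given primes,
* of the Fibonacci numbers, and of other binary recurrences with a dominant root.

Fix a degree bound `δ` and a bound `D` for the degrees of the fields of coefficients. For arbitrary
complex numbers `w_1, …, w_q` all but `C log (M + 1)` of the `(M + 1) ^ r` vectors `m` with
`m_i ≤ M` have the property that no logarithm of `u α ^ m + v β ^ m` satisfies a nontrivial relation
of degree at most `δ` whose coefficients are polynomials in `w_1, …, w_q` over a number field of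
degree at most `D`; the constant does not depend on `w_1, …, w_q`. More generally, for `k`-tuples of
such numbers, the number of exceptional tuples is at most
`C log (M + 1) (M + 1) ^ (r (k - 1))`. There is no bound for the heights of the coefficients.

The proof: the theorem `Pool.Agent.Y916.Al.windowP` of the starting library (Siegel's method for the
functions `log (1 + β x)`, with unknown constants) is applied at the points
`ξ = (α / β) ^ b`, with `β_m = (v / u) (α / β) ^ (b - m)` and the constants `w`, `log α_i`, `log u`, `2 π i`.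
It follows that among the vectors `m ≤ b` with `|b| - |m| ≤ |b| / C` at most `q + r + 2` are
exceptional; `O (log M)` such multiplicative windows cover all the vectors with `m_i ≤ M`.
-/

set_option autoImplicit false

namespace Pool.Agent.Results.MP_60829e_nt.BinaryRecurrences

open Pool.Agent.R351.SU

/-- **Main result.** -/
theorem result (k q r D δ : ℕ) (u v : Fin k → ℂ) (α β : Fin k → Fin r → ℂ)
    (hu : ∀ j, IsAlgebraic ℚ (u j) ∧ u j ≠ 0) (hv : ∀ j, IsAlgebraic ℚ (v j) ∧ v j ≠ 0)
    (hα : ∀ j i, IsAlgebraic ℚ (α j i)) (hβ : ∀ j i, IsAlgebraic ℚ (β j i) ∧ β j i ≠ 0)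
    (hαβ : ∀ j i, ‖β j i‖ < ‖α j i‖)
    (hinj : ∀ j, Function.Injective fun m : Fin r → ℕ => ∏ i, (β j i / α j i) ^ m i) :
    ∃ C : ℝ, ∀ (w : Fin q → ℂ) (M : ℕ), 1 ≤ M → ∃ X : Finset (Fin k → Fin r → ℕ),
      (X.card : ℝ) ≤ C * Real.log (M + 1) * ((M : ℝ) + 1) ^ (r * (k - 1)) ∧
      ∀ m : Fin k → Fin r → ℕ, (∀ j i, m j i ≤ M) → m ∉ X →
      ∀ l : Fin k → ℂ,
        (∀ j, Complex.exp (l j) = u j * ∏ i, α j i ^ m j i + v j * ∏ i, β j i ^ m j i) →
      ∀ K : IntermediateField ℚ ℂ, FiniteDimensional ℚ K → Module.finrank ℚ K ≤ D →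
      ∀ P : MvPolynomial (Fin q ⊕ Fin k) K, P.totalDegree ≤ δ →
      MvPolynomial.aeval (Sum.elim w l) P = 0 →
      MvPolynomial.aeval (Sum.elim (fun a => MvPolynomial.C (w a)) MvPolynomial.X) P =
        (0 : MvPolynomial (Fin k) ℂ) := by
  set f : Fin k → Fam r := fun j =>
    { u := u j
      v := v j
      α := α j
      β := β j
      hu := (hu j).1
      hv := (hv j).1
      hu0 := (hu j).2
      hv0 := (hv j).2
      hα := hα j
      hβ := fun i => (hβ j i).1
      hβ0 := fun i => (hβ j i).2
      hlt := hαβ j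
      inj := hinj j } with hf
  obtain ⟨C, hC⟩ := exT_card (q := q) f D δ
  refine ⟨3 * C, fun w M hM => ⟨exT f D δ w M, ?_, ?_⟩⟩
  · have h1 := hC w M hM
    have h2 : ((Nat.log 2 M : ℕ) : ℝ) + 1 ≤ 3 * Real.log (M + 1) := by
      have hM1 : (1 : ℝ) ≤ M := by exact_mod_cast hM
      have h3 : ((Nat.log 2 M : ℕ) : ℝ) * Real.log 2 ≤ Real.log M := by
        rw [← Real.log_pow]
        apply Real.log_le_log (by positivity)
        have := Nat.pow_log_le_self 2 (show M ≠ 0 by omega)
        exact_mod_cast this
      have h4 : Real.log M + Real.log 2 ≤ 2 * Real.log (M + 1) := by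
        rw [← Real.log_mul (by positivity) (by norm_num)]
        have h5 : 2 * Real.log (M + 1) = Real.log (((M : ℝ) + 1) ^ 2) := by
          rw [Real.log_pow]; norm_num
        rw [h5]
        apply Real.log_le_log (by positivity)
        nlinarith
      have h6 := Real.log_two_gt_d9
      have h7 : (((Nat.log 2 M : ℕ) : ℝ) + 1) * Real.log 2 ≤ 2 * Real.log (M + 1) := by linarith
      have h8 : 0 ≤ ((Nat.log 2 M : ℕ) : ℝ) := Nat.cast_nonneg _
      nlinarith
    calc ((exT f D δ w M).card : ℝ) ≤
          ((C * (Nat.log 2 M + 1) * (M + 1) ^ (r * (k - 1)) : ℕ) : ℝ) := by exact_mod_cast h1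
      _ = C * (((Nat.log 2 M : ℕ) : ℝ) + 1) * ((M : ℝ) + 1) ^ (r * (k - 1)) := by push_cast; ring
      _ ≤ C * (3 * Real.log (M + 1)) * ((M : ℝ) + 1) ^ (r * (k - 1)) := by
          refine mul_le_mul_of_nonneg_right (mul_le_mul_of_nonneg_left h2 (Nat.cast_nonneg _)) ?_
          positivity
      _ = 3 * C * Real.log (M + 1) * ((M : ℝ) + 1) ^ (r * (k - 1)) := by ring
  · intro m hm hmX l hl K hK hKD P hP hP0
    exact notExc f D δ w M m hm hmX l hl K hK hKD P hP hP0

end Pool.Agent.Results.MP_60829e_nt.BinaryRecurrences
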