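import Mathlib
import Pool.Agent.R351.SlpRate

/-!
# Polynomials computed with few additions at the logarithms of almost all tuples of integers

For every `g, m, L` there is `c` such that for all `x ≥ 16` and arbitrary complex numbers
`t_1, ..., t_g`, for all but at most `c (log log x) ^ c / log x · x ^ m` of the `m`-tuples `n` of
integers in `[1, x]`, all logarithms `l i` of the `n i` have the following property: no nonzero
polynomial in `m` variables which can be computed from the variables, the numbers `t_1, ..., t_g`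
and algebraic numbers with at most `L` additions and arbitrarily many multiplications vanishes at
the point `l`. There is no bound for the degrees.
-/

set_option autoImplicit false

namespace Pool.Agent.Results.MP_60829e_nt.FewAdditions

open Pool.Agent.R351

/-- The polynomials `G 0, …, G (L - 1)` are computed with one addition each: `G l` is the sum of two
products of powers of the variables, of the numbers `t o`, of the earlier polynomials
`G 0, …, G (l - 1)`, and of an algebraic number. -/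
def Computed {g m : ℕ} (t : Fin g → ℂ) (L : ℕ) (G : ℕ → MvPolynomial (Fin m) ℂ) : Prop :=
  ∃ (c : ℕ → Bool → algebraicClosure ℚ ℂ) (u : ℕ → Bool → Fin g → ℕ) (a : ℕ → Bool → Fin m → ℕ)
    (h : ℕ → Bool → ℕ → ℕ), ∀ l < L, G l = ∑ b : Bool,
      MvPolynomial.C ((c l b : ℂ) * ∏ o, t o ^ u l b o) * (∏ i, MvPolynomial.X i ^ a l b i) *
        ∏ l' ∈ Finset.range l, G l' ^ h l b l'

theorem Computed.cmp {g m : ℕ} {t : Fin g → ℂ} {L : ℕ} {G : ℕ → MvPolynomial (Fin m) ℂ}
    (h : Computed t L G) : Cmp (algebraicClosure ℚ ℂ) (btm m t) L G := by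
  obtain ⟨c, u, a, e, h⟩ := h
  refine ⟨c, fun l b j => Sum.elim (u l b) (a l b) j, e, fun l hl => ?_⟩
  rw [h l hl]
  refine Finset.sum_congr rfl fun b _ => ?_
  rw [Fintype.prod_sum_type, Algebra.smul_def, IsScalarTower.algebraMap_apply
    (algebraicClosure ℚ ℂ) ℂ (MvPolynomial (Fin m) ℂ)]
  unfold btm
  simp only [Sum.elim_inl, Sum.elim_inr, map_mul, map_prod, map_pow, MvPolynomial.algebraMap_eq]
  have h1 : algebraMap (algebraicClosure ℚ ℂ) ℂ (c l b) = (c l b : ℂ) := rfl
  rw [h1]
  ring

/-- **Main result.** -/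
theorem result (g m L : ℕ) : ∃ c : ℕ, ∀ x : ℕ, 16 ≤ x → ∀ t : Fin g → ℂ,
    ∃ E : Finset (Fin m → ℕ),
      (E.card : ℝ) ≤ c * Real.log (Real.log x) ^ c / Real.log x * x ^ m ∧
      ∀ n : Fin m → ℕ, (∀ i, 0 < n i ∧ n i ≤ x) → n ∉ E →
      ∀ l : Fin m → ℂ, (∀ i, Complex.exp (l i) = n i) →
      ∀ G : ℕ → MvPolynomial (Fin m) ℂ, Computed t L G →
      ∀ j < L, G j ≠ 0 → MvPolynomial.eval l (G j) ≠ 0 := by
  classical
  obtain ⟨c, hc⟩ := rate_slp (m + L) m (g + 1)
  refine ⟨c, fun x hx t => ?_⟩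
  have hx' : x ≥ 16 := hx
  set T : ℂ := 2 * Real.pi * Complex.I with hT
  refine ⟨(Fintype.piFinset fun _ : Fin m => Finset.Ioc 0 x).filter (fun n =>
    ¬ GoodT (algebraicClosure ℚ ℂ) (Fin.cons T t : Fin (g + 1) → ℂ) (m + L)
      (fun i => (Real.log (n i) : ℂ))),
    hc x hx' _ _ (Finset.filter_subset _ _) (fun n hn => (Finset.mem_filter.1 hn).2), ?_⟩
  intro n hn hnE l hl G hG j hj hG0 h0
  have hg : GoodT (algebraicClosure ℚ ℂ) (Fin.cons T t : Fin (g + 1) → ℂ) (m + L)
      (fun i => (Real.log (n i) : ℂ)) := by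
    by_contra hcon
    apply hnE
    rw [Finset.mem_filter, Fintype.mem_piFinset]
    exact ⟨fun i => Finset.mem_Ioc.2 (hn i), hcon⟩
  -- the branches
  have hb : ∀ i, ∃ b : ℤ, l i = (Real.log (n i) : ℂ) + (b : ℂ) * T := by
    intro i
    have h3 : Complex.exp (l i) = Complex.exp (Real.log (n i) : ℂ) := by
      rw [hl i, ← Complex.ofReal_exp, Real.exp_log (by exact_mod_cast (hn i).1)]
      push_cast
      rfl
    exact Complex.exp_eq_exp_iff_exists_int.1 h3
  choose b hb using hb
  have h1 := hg.shift T (fun i => ((b i : ℤ) : algebraicClosure ℚ ℂ))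
  have h2 : (fun i => (Real.log (n i) : ℂ) +
      algebraMap (algebraicClosure ℚ ℂ) ℂ ((b i : ℤ) : algebraicClosure ℚ ℂ) * T) = l := by
    funext i
    rw [map_intCast, hb i]
  rw [h2] at h1
  exact hG0 (h1 G hG.cmp j hj h0)

end Pool.Agent.Results.MP_60829e_nt.FewAdditions
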