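import Mathlib
import Pool.Agent.R351.GD.Base

/-!
# Almost all tuples of integers: no relation of degree at most a power of `log T` over number fields of degree at
# most a power of `log T` between the logarithms

For all `k`, `q` there is a number `C` such that for all `T ≥ 1`, all `δ` and arbitrary complex numbers
`w_1, …, w_q` all but `C T ^ (k - (δ + 2) ^ (-C))` of the `k`-tuples `(n_1, …, n_k)` of positive integers up to `T`
have the following property: every relation of total degree at most `δ` between `w_1, …, w_q` and
logarithms `l_1, …, l_k` of `n_1, …, n_k` (arbitrary branches) with coefficients in any number field of degree at most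
`δ` is trivial: the polynomial vanishes after the substitution of the numbers `w_j`. There is no bound for
the heights of the coefficients and of the number field.

The bound `δ` for the degree of the relation and for the degree of the number field is not fixed here. In particular
all but `C T ^ k exp (- (log T) ^ (1 / 2))` of the tuples satisfy no relation of degree at most
`(log T) ^ (1 / (2 C)) - 2` over any number field of degree at most `(log T) ^ (1 / (2 C)) - 2`.

The proof. In the starting theorem `Pool.Agent.Y916.Al.windowP` (Siegel's method with unknown constants for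
the functions `log (1 + β x)`) the dependence on the degree and on the number field is made explicit: the exponent is
at most a power of the degrees. For this the monomials of degree at most `Δ` in the functions are shown to form a
G-system with a constant which is only exponential in `Δ` (`Pool.Agent.R351.GD.mon_exp`), and the auxiliary degree in
the elimination is chosen polynomially in `Δ` (`Pool.Agent.R351.GD.exists_D'`). So short intervals
`(N, N + H]` with `(H + 2) ^ E ≤ N`, where `E` is a power of `δ + 2`, contain at most `q + k + 3` exceptional
integers, for each choice of the constants `w` and of the other logarithms.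
-/

set_option autoImplicit false

namespace Pool.Agent.Results.MP_60829e_nt.GrowingDegrees

open Pool.Agent.R351.SU Pool.Agent.R351.GD

/-- **Main result.** -/
theorem result (k q : ℕ) : ∃ C : ℕ, ∀ (δ T : ℕ), 1 ≤ T → ∀ w : Fin q → ℂ,
    ∃ X : Finset (Fin k → ℕ), (X.card : ℝ) ≤ C * (T : ℝ) ^ ((k : ℝ) - 1 / ((δ : ℝ) + 2) ^ C) ∧
      ∀ n : Fin k → ℕ, (∀ i, 1 ≤ n i ∧ n i ≤ T) → n ∉ X →
      ∀ l : Fin k → ℂ, (∀ i, Complex.exp (l i) = n i) →
      ∀ K : IntermediateField ℚ ℂ, FiniteDimensional ℚ K → Module.finrank ℚ K ≤ δ →
      ∀ P : MvPolynomial (Fin q ⊕ Fin k) K, P.totalDegree ≤ δ →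
      MvPolynomial.aeval (Sum.elim w l) P = 0 →
      MvPolynomial.aeval (Sum.elim (fun a => MvPolynomial.C (w a)) MvPolynomial.X) P =
        (0 : MvPolynomial (Fin k) ℂ) := by
  obtain ⟨C, hC⟩ := int_tuples k q
  refine ⟨C, fun δ T hT w => ⟨exG (fun (_ : Fin k) (n : ℕ) => (n : ℂ)) δ δ w fun _ => Finset.Icc 1 T,
    hC δ T hT w, fun n hn hnX l hl K hK hKD P hP hP0 => ?_⟩⟩
  exact notExcG (fun (_ : Fin k) (n : ℕ) => (n : ℂ)) δ δ w (fun _ => Finset.Icc 1 T) n
    (fun j => Finset.mem_Icc.2 (hn j)) hnX l hl K hK hKD P hP hP0

end Pool.Agent.Results.MP_60829e_nt.GrowingDegrees
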