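import Mathlib
import Pool.Agent.R350.GT
import Pool.Agent.R350.HH

/-!
# Algebraic independence of generic logarithms together with arbitrary logarithms

Let `LogForms` be the space of all linear combinations, with algebraic coefficients, of `1` and
logarithms of algebraic numbers.  Call a tuple `y_1, …, y_n` of complex numbers generic of degree `D`
if `1, y_1, …, y_n` are linearly independent over the field `ℚ̄` of algebraic numbers, and if for
ARBITRARY elements `l_1, …, l_s` of `LogForms` (any number of them, chosen after `y`) such that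
`1, y_1, …, y_n, l_1, …, l_s` are linearly independent over `ℚ̄`, no nonzero polynomial `P (X, Y)`
with algebraic coefficients, of degree at most `D` in every `X_i` and of total degree at most `1` in
the `Y_j`, vanishes at `(y, l)`.  By the theorem of Baker the `l_j` may be any logarithms of algebraic
numbers which are, together with the `y_i`, linearly independent over `ℚ`.

1. For all `n` and `D` there is `C` such that for `x ≥ 16` all but
   `C (log log x) ^ C / log x * x ^ n` of the `n`-tuples `a` of positive integers up to `x` have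
   logarithms `log a_1, …, log a_n` which are generic of degree `D`.
2. Let `D ≥ 1`, `c = ((D + 2) (D + 1) ^ (n - 1)) ^ 2` and let `λ_1, …, λ_N` and `z_1, …, z_n` be ARBITRARY
   elements of `LogForms` such that `1, λ_1, …, λ_N` are linearly independent over `ℚ̄`.  The set of all
   `n × N` matrices `b` of algebraic numbers for which the tuple `y_i = z_i + ∑_k b_{i k} λ_k` is not
   generic of degree `D` has dimension at most `(n - 1) N + c`: the values of any `s > (n - 1) N + c`
   linear forms at the points of this set satisfy a nontrivial polynomial relation, whose degree is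
   bounded in terms of `n`, `D`, `N` and `s` only.
3. At most `C H ^ ((n - 1) N + c)` of these matrices have integral entries of absolute value at most `H`,
   where `C` depends only on `n`, `D` and `N`.

The proof (`Pool.Agent.R350`) of 1. uses the strong six exponentials theorem of D. Roy, large cubes in
dense sets of integers and a sunflower argument.  For 2. an ultrafilter of matrices such that the
linear forms are algebraically independent gives an ultrapower of `ℂ` with derivations which
preserve the space spanned by `LogForms`.  A relation of degree `D` is reduced to linear relations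
with many linearly independent columns by means of these derivations, and these are excluded by
Roy's theorem.  The bound for the degree is obtained by a second ultraproduct.
-/

set_option autoImplicit false

namespace Pool.Agent.Results.MP_60829e_nt.LinearInArbitraryLogs

open MvPolynomial

/-- the linear combinations, with algebraic coefficients, of `1` and logarithms of algebraic numbers -/
noncomputable def LogForms : Submodule (algebraicClosure ℚ ℂ) ℂ :=
  Submodule.span (algebraicClosure ℚ ℂ) ({1} ∪ {z : ℂ | IsAlgebraic ℚ (Complex.exp z)})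

/-- `1` and `y` are linearly independent over the field of algebraic numbers, and `y` satisfies no
relation of degree at most `D` in `y` which is linear in arbitrary elements of `LogForms` that are
linearly independent of `1` and `y` -/
def Generic {n : ℕ} (D : ℕ) (y : Fin n → ℂ) : Prop :=
  LinearIndependent (algebraicClosure ℚ ℂ) (fun o : Option (Fin n) => o.elim 1 y) ∧
    ∀ (s : ℕ) (l : Fin s → ℂ), (∀ j, l j ∈ LogForms) →
      LinearIndependent (algebraicClosure ℚ ℂ)
        (fun o : Option (Fin n ⊕ Fin s) => o.elim 1 (Sum.elim y l)) →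
      ∀ P : MvPolynomial (Fin n ⊕ Fin s) (algebraicClosure ℚ ℂ),
        (∀ i, P.degreeOf (Sum.inl i) ≤ D) →
        (∀ β ∈ P.support, ∑ j, β (Sum.inr j) ≤ 1) →
        aeval (Sum.elim y l) P = 0 → P = 0

theorem generic_of_gen1 {n D : ℕ} {y : Fin n → ℂ}
    (h : Pool.Agent.R350.Gen1 Pool.Agent.H301R2.SSE.Lt D y) : Generic D y := h

open Classical in
/-- **Main result.** -/
theorem result (n D : ℕ) :
    (∃ C : ℕ, ∀ x : ℕ, 16 ≤ x →
      (((Fintype.piFinset fun _ : Fin n => Finset.Icc 1 x).filter fun a =>
        ¬ Generic D (fun i => (Real.log (a i) : ℂ))).card : ℝ) ≤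
        C * Real.log (Real.log x) ^ C / Real.log x * (x : ℝ) ^ n) ∧
    (1 ≤ D → ∀ N : ℕ,
      (∀ s : ℕ, (n - 1) * N + ((D + 2) * (D + 1) ^ (n - 1)) ^ 2 < s → ∃ e : ℕ,
        ∀ z : Fin n → ℂ, (∀ i, z i ∈ LogForms) → ∀ l : Fin N → ℂ, (∀ k, l k ∈ LogForms) →
        LinearIndependent (algebraicClosure ℚ ℂ) (fun o : Option (Fin N) => o.elim 1 l) →
        ∀ f : Fin s → Fin n × Fin N → algebraicClosure ℚ ℂ,
        ∃ G : MvPolynomial (Fin s) (algebraicClosure ℚ ℂ), G ≠ 0 ∧ G.totalDegree ≤ e ∧
          ∀ b : Fin n × Fin N → algebraicClosure ℚ ℂ,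
            ¬ Generic D (fun i => z i + ∑ k, b (i, k) • l k) →
            eval (fun q => ∑ x, f q x * b x) G = 0) ∧
      ∃ C : ℕ, ∀ z : Fin n → ℂ, (∀ i, z i ∈ LogForms) →
        ∀ l : Fin N → ℂ, (∀ k, l k ∈ LogForms) →
        LinearIndependent (algebraicClosure ℚ ℂ) (fun o : Option (Fin N) => o.elim 1 l) →
        ∀ H : ℕ, 1 ≤ H → Set.ncard {a : Fin n → Fin N → ℤ | (∀ i k, |a i k| ≤ H) ∧
          ¬ Generic D (fun i => z i + ∑ k, (a i k : ℂ) * l k)} ≤
          C * H ^ ((n - 1) * N + ((D + 2) * (D + 1) ^ (n - 1)) ^ 2)) := by
  refine ⟨?_, fun hD N => ⟨fun s hs => ?_, ?_⟩⟩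
  · obtain ⟨C, hC⟩ := Pool.Agent.R350.rate_free_complex (D + 1) n
    refine ⟨C, fun x hx => ?_⟩
    refine hC x hx _ (fun a ha => (Finset.mem_filter.1 ha).1) ?_
    intro a ha hfree
    apply (Finset.mem_filter.1 ha).2
    have hapos : ∀ i, 0 < a i := fun i => by
      have := (Fintype.mem_piFinset.1 (Finset.mem_filter.1 ha).1) i
      exact (Finset.mem_Icc.1 this).1
    refine generic_of_gen1 (Pool.Agent.R350.gen1_of_free (Nat.le_succ D)
      Pool.Agent.R350.setup_complex.one (fun i => Pool.Agent.H301R2.SSE.Lt_log ?_) hfree)
    rw [← Complex.ofReal_exp, Real.exp_log (by exact_mod_cast hapos i), Complex.ofReal_natCast]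
    exact isAlgebraic_natCast _
  · obtain ⟨e, he⟩ := Pool.Agent.R350.gen1_dim (algebraicClosure ℚ ℂ) ℂ D n N s hD hs
    refine ⟨e, fun z hz l hl hli f => ?_⟩
    obtain ⟨G, h1, h2, h3⟩ := he Pool.Agent.H301R2.SSE.Lt Pool.Agent.R350.setup_complex.hyp
      Pool.Agent.R350.setup_complex.one z hz l hl hli f
    refine ⟨G, h1, h2, fun b hb => ?_⟩
    by_contra h
    exact hb (generic_of_gen1 (h3 b h))
  · obtain ⟨C, hC⟩ := Pool.Agent.R350.gen1_count (algebraicClosure ℚ ℂ) ℂ D n N hD
    refine ⟨C, fun z hz l hl hli H hH => ?_⟩
    refine le_trans (Set.ncard_le_ncard ?_ ?_) (hC Pool.Agent.H301R2.SSE.Lt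
      Pool.Agent.R350.setup_complex.hyp Pool.Agent.R350.setup_complex.one z hz l hl hli H hH)
    · rintro a ⟨ha1, ha2⟩
      refine ⟨ha1, fun h => ha2 (generic_of_gen1 ?_)⟩
      have he : (fun i => z i + ∑ k, (a i k : ℂ) * l k) =
          fun i => z i + ∑ k, (a i k : algebraicClosure ℚ ℂ) • l k := by
        funext i
        congr 1
      rw [he]
      exact h
    · have h1 : ((Fintype.piFinset fun _ : Fin n => Fintype.piFinset fun _ : Fin N =>
          Finset.Icc (-(H : ℤ)) H : Finset (Fin n → Fin N → ℤ)) :
          Set (Fin n → Fin N → ℤ)).Finite := Finset.finite_toSet _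
      refine h1.subset fun A hA => ?_
      rw [Finset.mem_coe, Fintype.mem_piFinset]
      intro i
      rw [Fintype.mem_piFinset]
      intro j
      rw [Finset.mem_Icc, ← abs_le]
      exact hA.1 i j

end Pool.Agent.Results.MP_60829e_nt.LinearInArbitraryLogs
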